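import Pool.Agent.Q220.DP.NoTube

/-!
Directed polymers on `ℤ^d` with a general i.i.d. environment: for `κ < 1/(d+2)` the polymer does not
stay in a tube of radius `n^κ` about any deterministic path, with a rate which is uniform in the
path. The walk, the energy, `partitionFn` and `polymerProb` are defined in
`Pool/Agent/TH967/DP/Defs.lean`.
-/

set_option autoImplicit false

namespace Pool.Agent.Results.MP_7d29a1_pr.DeterministicTubes

open MeasureTheory ProbabilityTheory Filter TH967.DP

/-- The walks of `n` steps with `‖S_i - γ_i‖ ≤ r` (Euclidean norm) for all `0 ≤ i ≤ n`. -/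
def tube {d : ℕ} (n : ℕ) (γ : ℕ → Fin d → ℝ) (r : ℝ) : Set (Fin n → Step d) :=
  {w | ∀ i ≤ n, Real.sqrt (∑ k, ((pos w i k : ℝ) - γ i k) ^ 2) ≤ r}

lemma tube_subset {d n : ℕ} (γ : ℕ → Fin d → ℝ) {r : ℝ} {D : ℕ} (hD : 2 * r < D + 1)
    {w0 : Fin n → Step d} (hw0 : w0 ∈ tube n γ r) : tube n γ r ⊆ Pool.Agent.Q220.DP.tubeW D w0 := by
  intro w hw i hi k
  have h1 : ∀ u ∈ tube n γ r, |(pos u i k : ℝ) - γ i k| ≤ r := by
    intro u hu
    refine le_trans ?_ (hu i hi)
    apply Real.le_sqrt_of_sq_le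
    rw [sq_abs]
    exact Finset.single_le_sum (f := fun k => ((pos u i k : ℝ) - γ i k) ^ 2)
      (fun _ _ => sq_nonneg _) (Finset.mem_univ k)
  have h2 := abs_le.1 (h1 w hw)
  have h3 := abs_le.1 (h1 w0 hw0)
  have h4 : |((pos w i - pos w0 i) k : ℝ)| < D + 1 := by
    rw [abs_lt]
    simp only [Pi.sub_apply]
    push_cast
    constructor <;> linarith [h2.1, h2.2, h3.1, h3.2]
  have h5 : |(pos w i - pos w0 i) k| < (D : ℤ) + 1 := by exact_mod_cast h4
  omega

/-- **The polymer leaves every tube about a deterministic path.** Let `d ≥ 1`, `β > 0`, and let the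
environment be i.i.d., not constant, with all exponential moments. Let `0 < κ < 1/(d+2)` and
`c < (1-(d+2)κ)/6`. For all large `n`:
(1) for every deterministic path `γ`, the event that the polymer measure of
`max_{i≤n} ‖S_i - γ_i‖ ≤ n^κ` is larger than `exp(-n^κ)` has probability at most `n^(-c)`;
(2) for every finite set `Γ` of deterministic paths, the averaged polymer measure of the union of the
tubes of radius `n^κ` about the paths in `Γ` is at most `|Γ| n^(-c)`. -/
theorem result {d : ℕ} (hd : 1 ≤ d) {Ω : Type} [MeasurableSpace Ω] (P : Measure Ω)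
    [IsProbabilityMeasure P] (ω : ℕ → (Fin d → ℤ) → Ω → ℝ)
    (hmeas : ∀ i y, Measurable (ω i y))
    (hindep : iIndepFun (fun s : ℕ × (Fin d → ℤ) => ω s.1 s.2) P)
    (hident : ∀ i y, IdentDistrib (ω i y) (ω 1 0) P P)
    (hexp : ∀ b : ℝ, Integrable (fun x => Real.exp (b * ω 1 0 x)) P)
    (hnc : ¬ ∃ c : ℝ, ∀ᵐ x ∂P, ω 1 0 x = c) (β : ℝ) (hβ : 0 < β)
    (κ c : ℝ) (hκ : 0 < κ) (hκ2 : κ < 1 / ((d : ℝ) + 2)) (hc : c < (1 - (d + 2) * κ) / 6) :
    ∀ᶠ n : ℕ in atTop,
      (∀ γ : ℕ → Fin d → ℝ,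
        P.real {x | Real.exp (-(n : ℝ) ^ κ) <
          polymerProb β (fun i y => ω i y x) n (tube n γ ((n : ℝ) ^ κ))} ≤ (n : ℝ) ^ (-c)) ∧
      (∀ Γ : Finset (ℕ → Fin d → ℝ),
        ∫ x, polymerProb β (fun i y => ω i y x) n (⋃ γ ∈ Γ, tube n γ ((n : ℝ) ^ κ)) ∂P ≤
          Γ.card * (n : ℝ) ^ (-c)) := by
  have h : IsEnv P ω := ⟨hmeas, hindep, hident⟩
  have hd2 : (0 : ℝ) < (d : ℝ) + 2 := by positivity
  have hd0 : (0 : ℝ) ≤ d := by positivity
  rw [lt_div_iff₀ hd2] at hκ2
  set g := (1 - (d + 2) * κ) / 6 with hg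
  have hg0 : 0 < g := by rw [hg]; linarith
  -- a better exponent and a larger radius
  set m0 := max c 0 with hm0
  have hm1 : m0 < g := max_lt hc hg0
  have hmc : c ≤ m0 := le_max_left _ _
  have hmn : 0 ≤ m0 := le_max_right _ _
  set c' := (m0 + g) / 2 with hc'
  have hc'1 : c < c' := by rw [hc']; linarith
  have hc'0 : 0 < c' := by rw [hc']; linarith
  have hc'2 : c' < g := by rw [hc']; linarith
  set s := (g - c') / (d + 2) with hs
  have hs0 : 0 < s := div_pos (by linarith) hd2
  have hs1 : s * (d + 2) = g - c' := by rw [hs]; field_simp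
  set κ' := κ + s with hκ'
  have hκ'0 : 0 < κ' := by rw [hκ']; linarith
  have hkey : 3 * c' < (1 - d * κ') / 2 - κ' := by
    rw [hκ']
    have e1 : (1 - d * (κ + s)) / 2 - (κ + s) = (1 - (d + 2) * κ) / 2 - s * (d + 2) / 2 := by ring
    rw [e1, hs1]
    have e2 : (1 - (d + 2) * κ) / 2 = 3 * g := by rw [hg]; ring
    rw [e2]
    linarith
  have hmain := Pool.Agent.Q220.DP.no_tube h hd hexp hnc hβ hκ'0 hc'0.le hkey
  have q1 := pow_dom (s := κ) (t := κ') (by rw [hκ']; linarith) 2
  have q2 := pow_dom (s := -c') (t := -c) (by linarith) 2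
  -- exponential versus power
  have q3 : ∀ᶠ n : ℕ in atTop, Real.exp (-(n : ℝ) ^ κ) ≤ (n : ℝ) ^ (-c') := by
    have h1 := G_dom (e := κ) (K1 := 1) hκ zero_le_one d c'
    filter_upwards [h1, eventually_ge_atTop 1] with n hn hn1
    have hnR : (1 : ℝ) ≤ n := by exact_mod_cast hn1
    refine le_trans ?_ hn
    have h2 : (1 : ℝ) ≤ (2 * (n : ℝ) + 1) ^ d := one_le_pow₀ (by linarith)
    have h3 : 0 < Real.exp (-(n : ℝ) ^ κ) := Real.exp_pos _
    have h4 : (1 : ℝ) ≤ n * (2 * (n : ℝ) + 1) ^ d := by nlinarith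
    nlinarith
  filter_upwards [hmain, q1, q2, q3, eventually_ge_atTop 1] with n hn r1 r2 r3 hn1
  have hnR : (1 : ℝ) ≤ n := by exact_mod_cast hn1
  have hn0 : (0 : ℝ) < n := by linarith
  have hexpmono : Real.exp (-(n : ℝ) ^ κ') ≤ Real.exp (-(n : ℝ) ^ κ) := by
    apply Real.exp_le_exp.2
    have : (n : ℝ) ^ κ ≤ (n : ℝ) ^ κ' :=
      Real.rpow_le_rpow_of_exponent_le hnR (by rw [hκ']; linarith)
    linarith
  have hA : ∀ γ : ℕ → Fin d → ℝ, P.real {x | Real.exp (-(n : ℝ) ^ κ) <
      polymerProb β (fun i y => ω i y x) n (tube n γ ((n : ℝ) ^ κ))} ≤ (n : ℝ) ^ (-c') := by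
    intro γ
    by_cases hne : (tube n γ ((n : ℝ) ^ κ)).Nonempty
    · obtain ⟨w0, hw0⟩ := hne
      refine le_trans (measureReal_mono ?_ (measure_ne_top _ _)) (hn w0)
      intro x hx
      simp only [Set.mem_ofPred_eq] at hx ⊢
      refine lt_of_le_of_lt hexpmono (lt_of_lt_of_le hx ?_)
      apply polymerProb_mono hd
      apply tube_subset γ _ hw0
      have := Nat.lt_floor_add_one ((n : ℝ) ^ κ')
      linarith
    · have he : tube n γ ((n : ℝ) ^ κ) = ∅ := Set.not_nonempty_iff_eq_empty.1 hne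
      have h0 : {x | Real.exp (-(n : ℝ) ^ κ) <
          polymerProb β (fun i y => ω i y x) n (tube n γ ((n : ℝ) ^ κ))} = ∅ := by
        ext x
        simp only [Set.mem_ofPred_eq, Set.mem_empty_iff_false, iff_false, not_lt]
        rw [he]
        unfold polymerProb
        simp only [Set.indicator_empty, Finset.sum_const_zero, zero_div]
        exact (Real.exp_pos _).le
      rw [h0]
      simp only [measureReal_empty]
      positivity
  have hcc : (n : ℝ) ^ (-c') ≤ (n : ℝ) ^ (-c) :=
    Real.rpow_le_rpow_of_exponent_le hnR (by linarith)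
  refine ⟨fun γ => (hA γ).trans hcc, fun Γ => ?_⟩
  -- measurability and bounds
  have hmp : ∀ A : Set (Fin n → Step d), Measurable (fun x => polymerProb β (fun i y => ω i y x) n A) := by
    intro A
    have he : ∀ w : Fin n → Step d,
        Measurable (fun x => Real.exp (β * energy (fun i z => ω i z x) w)) := by
      intro w
      apply Real.measurable_exp.comp
      apply Measurable.const_mul
      unfold energy
      apply Finset.measurable_sum
      intro i _
      exact h.meas _ _
    unfold polymerProb partitionFn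
    apply Measurable.div
    · apply Measurable.div_const
      apply Finset.measurable_sum
      intro w _
      by_cases hw : w ∈ A
      · simp only [Set.indicator_of_mem hw]
        exact he w
      · simp only [Set.indicator_of_notMem hw]
        exact measurable_const
    · apply Measurable.div_const
      apply Finset.measurable_sum
      intro w _
      exact he w
  have hp0 : ∀ x (A : Set (Fin n → Step d)), 0 ≤ polymerProb β (fun i y => ω i y x) n A :=
    fun x A => polymerProb_nonneg hd _ _ _ _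
  have hp1 : ∀ x (A : Set (Fin n → Step d)), polymerProb β (fun i y => ω i y x) n A ≤ 1 := by
    intro x A
    rw [← polymerProb_univ hd β (fun i y => ω i y x) n]
    exact polymerProb_mono hd _ _ _ (Set.subset_univ _)
  have hint : ∀ A : Set (Fin n → Step d),
      Integrable (fun x => polymerProb β (fun i y => ω i y x) n A) P := by
    intro A
    apply Integrable.of_bound (hmp A).aestronglyMeasurable (1 : ℝ)
    apply Eventually.of_forall
    intro x
    rw [Real.norm_eq_abs, abs_of_nonneg (hp0 x A)]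
    exact hp1 x A
  have hone : ∀ γ : ℕ → Fin d → ℝ,
      ∫ x, polymerProb β (fun i y => ω i y x) n (tube n γ ((n : ℝ) ^ κ)) ∂P ≤ (n : ℝ) ^ (-c) := by
    intro γ
    set B := {x | Real.exp (-(n : ℝ) ^ κ) <
      polymerProb β (fun i y => ω i y x) n (tube n γ ((n : ℝ) ^ κ))} with hB
    have hBm : MeasurableSet B := measurableSet_lt measurable_const (hmp _)
    have h1 : ∫ x, polymerProb β (fun i y => ω i y x) n (tube n γ ((n : ℝ) ^ κ)) ∂P ≤
        ∫ x, (Real.exp (-(n : ℝ) ^ κ) + B.indicator (fun _ => (1 : ℝ)) x) ∂P := by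
      apply integral_mono (hint _) ((integrable_const _).add
        ((integrable_const (1 : ℝ)).indicator hBm))
      intro x
      change polymerProb β (fun i y => ω i y x) n (tube n γ ((n : ℝ) ^ κ)) ≤
        Real.exp (-(n : ℝ) ^ κ) + B.indicator (fun _ => (1 : ℝ)) x
      by_cases hx : x ∈ B
      · rw [Set.indicator_of_mem hx]
        have := hp1 x (tube n γ ((n : ℝ) ^ κ))
        have := Real.exp_pos (-(n : ℝ) ^ κ)
        linarith
      · rw [Set.indicator_of_notMem hx, add_zero]
        exact not_lt.1 hx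
    rw [integral_add (integrable_const _) ((integrable_const (1 : ℝ)).indicator hBm),
      integral_indicator hBm] at h1
    simp only [integral_const, probReal_univ, smul_eq_mul, one_mul, mul_one,
      measureReal_restrict_apply_univ] at h1
    have h2 := hA γ
    linarith
  have hunion : ∀ Γ : Finset (ℕ → Fin d → ℝ), ∀ x, polymerProb β (fun i y => ω i y x) n
      (⋃ γ ∈ Γ, tube n γ ((n : ℝ) ^ κ)) ≤
      ∑ γ ∈ Γ, polymerProb β (fun i y => ω i y x) n (tube n γ ((n : ℝ) ^ κ)) := by
    intro Γ x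
    simp_rw [polymerProb_eq hd]
    rw [← Finset.sum_div]
    apply div_le_div_of_nonneg_right _ (ZF_pos hd β _ n).le
    rw [Finset.sum_comm]
    apply Finset.sum_le_sum
    intro w _
    by_cases hw : w ∈ ⋃ γ ∈ Γ, tube n γ ((n : ℝ) ^ κ)
    · rw [Set.indicator_of_mem hw]
      simp only [Set.mem_iUnion] at hw
      obtain ⟨γ, hγ, hw⟩ := hw
      have h1 := Finset.single_le_sum (f := fun γ => (tube n γ ((n : ℝ) ^ κ)).indicator
        (fun w => Real.exp (β * energy (fun i y => ω i y x) w)) w) (s := Γ)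
        (fun _ _ => Set.indicator_nonneg (fun _ _ => (Real.exp_pos _).le) _) hγ
      simp only [Set.indicator_of_mem hw] at h1
      exact h1
    · rw [Set.indicator_of_notMem hw]
      exact Finset.sum_nonneg (fun _ _ => Set.indicator_nonneg (fun _ _ => (Real.exp_pos _).le) _)
  calc ∫ x, polymerProb β (fun i y => ω i y x) n (⋃ γ ∈ Γ, tube n γ ((n : ℝ) ^ κ)) ∂P
      ≤ ∫ x, ∑ γ ∈ Γ, polymerProb β (fun i y => ω i y x) n (tube n γ ((n : ℝ) ^ κ)) ∂P :=
        integral_mono (hint _) (integrable_finsetSum _ (fun γ _ => hint _)) (hunion Γ)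
    _ = ∑ γ ∈ Γ, ∫ x, polymerProb β (fun i y => ω i y x) n (tube n γ ((n : ℝ) ^ κ)) ∂P :=
        integral_finsetSum _ (fun γ _ => hint _)
    _ ≤ ∑ _γ ∈ Γ, (n : ℝ) ^ (-c) := Finset.sum_le_sum (fun γ _ => hone γ)
    _ = Γ.card * (n : ℝ) ^ (-c) := by rw [Finset.sum_const, nsmul_eq_mul]

end Pool.Agent.Results.MP_7d29a1_pr.DeterministicTubes
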