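import Pool.Agent.Q70.DpE

/-!
# Directed polymers: polynomial tails, rapid tails, moments and the variance of `log Z_n`

The walk, the energy and `partitionFn` are defined in `Pool/Agent/TH967/DP/Defs.lean`.
-/

set_option autoImplicit false

open MeasureTheory ProbabilityTheory Filter
open TH967.DP (partitionFn)

namespace Pool.Agent.Results.MP_7d29a1_pr.FluctuationMoments

section

variable {d : ℕ} {Ω : Type} [MeasurableSpace Ω] (P : Measure Ω) (ω : ℕ → (Fin d → ℤ) → Ω → ℝ)
  (β p : ℝ)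

/-- `log Z_n`, as a function on the probability space. -/
noncomputable def logZ (n : ℕ) (x : Ω) : ℝ := Real.log (partitionFn β (fun i y => ω i y x) n)

/-- The probability that `log Z_n < n p - s`. -/
noncomputable def lowProb (n : ℕ) (s : ℝ) : ℝ := (P {x | logZ ω β n x < n * p - s}).toReal

/-- The probability that `log Z_n > n p + s`. -/
noncomputable def upProb (n : ℕ) (s : ℝ) : ℝ := (P {x | n * p + s < logZ ω β n x}).toReal

/-- `log Z_n < n p - n ^ (b + ζ)` has probability `O(n ^ (-δ))` for some `δ > 0`. -/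
def LowPolynomial (b : ℝ) : Prop := ∀ ζ : ℝ, 0 < ζ → ∃ δ : ℝ, 0 < δ ∧ ∃ C : ℝ,
  ∀ n : ℕ, 1 ≤ n → lowProb P ω β p n ((n : ℝ) ^ (b + ζ)) ≤ C * (n : ℝ) ^ (-δ)

/-- `log Z_n < n p - n ^ (b + ζ)` has probability `O(n ^ (-q))` for all `q > 0`. -/
def LowRapid (b : ℝ) : Prop := ∀ ζ : ℝ, 0 < ζ → ∀ q : ℝ, 0 < q → ∃ C : ℝ,
  ∀ n : ℕ, 1 ≤ n → lowProb P ω β p n ((n : ℝ) ^ (b + ζ)) ≤ C * (n : ℝ) ^ (-q)

/-- `log Z_n > n p + s` has probability `O(n s ^ (-1 / b + ζ))`, uniformly in `s ≥ 1`. -/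
def UpTail (b : ℝ) : Prop := ∀ ζ : ℝ, 0 < ζ → ∃ C : ℝ,
  ∀ n : ℕ, 1 ≤ n → ∀ s : ℝ, 1 ≤ s → upProb P ω β p n s ≤ C * ((n : ℝ) * s ^ (-(1 / b) + ζ))

/-- The `q`-th moment of the negative part of `log Z_n - n p` is `O(n ^ (b q + ζ))`. -/
def NegMoment (b q : ℝ) : Prop := ∀ ζ : ℝ, 0 < ζ → ∃ C : ℝ, ∀ n : ℕ, 1 ≤ n →
  ∫ x, max (n * p - logZ ω β n x) 0 ^ q ∂P ≤ C * (n : ℝ) ^ (b * q + ζ)

/-- The `q`-th absolute moment of `log Z_n - n p` is `O(n ^ (b q + ζ))`. -/
def AbsMoment (b q : ℝ) : Prop := ∀ ζ : ℝ, 0 < ζ → ∃ C : ℝ, ∀ n : ℕ, 1 ≤ n →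
  ∫ x, |logZ ω β n x - n * p| ^ q ∂P ≤ C * (n : ℝ) ^ (b * q + ζ)

/-- The variance of `log Z_n` is `O(n ^ (2 b + ζ))` and its mean is at least
`n p - O(n ^ (b + ζ))`. -/
def VarianceAndMean (b : ℝ) : Prop := ∀ ζ : ℝ, 0 < ζ → ∃ C : ℝ, ∀ n : ℕ, 1 ≤ n →
  variance (logZ ω β n) P ≤ C * (n : ℝ) ^ (2 * b + ζ) ∧
  n * p - ∫ x, logZ ω β n x ∂P ≤ C * (n : ℝ) ^ (b + ζ)

end

open Q70.Dp

/-- For directed polymers in every dimension `d ≥ 1`, with i.i.d. environments with all exponential
moments and every `β`, with free energy `p = lim E log Z_n / n`, and every exponent `b` between `0`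
and `1 / 2`, the six properties are equivalent. -/
theorem result {d : ℕ} (hd : 1 ≤ d) {Ω : Type} [MeasurableSpace Ω] (P : Measure Ω)
    [IsProbabilityMeasure P] (ω : ℕ → (Fin d → ℤ) → Ω → ℝ)
    (hmeas : ∀ i y, Measurable (ω i y))
    (hindep : iIndepFun (fun s : ℕ × (Fin d → ℤ) => ω s.1 s.2) P)
    (hident : ∀ i y, IdentDistrib (ω i y) (ω 1 0) P P)
    (hexp : ∀ t : ℝ, Integrable (fun x => Real.exp (t * ω 1 0 x)) P)
    (β p : ℝ)
    (hp : Tendsto (fun n : ℕ => (∫ x, logZ ω β n x ∂P) / (n : ℝ)) atTop (nhds p))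
    (b : ℝ) (hb : 0 < b) (hb2 : b < 1 / 2) :
    List.TFAE [
      LowPolynomial P ω β p b,
      LowRapid P ω β p b ∧ UpTail P ω β p b,
      ∃ q : ℝ, 0 < q ∧ NegMoment P ω β p b q,
      ∀ q : ℝ, 0 < q → NegMoment P ω β p b q,
      ∀ q : ℝ, 0 < q → q < 1 / b → AbsMoment P ω β p b q,
      VarianceAndMean P ω β p b] := by
  set law : Measure ℝ := P.map (ω 1 0) with hlaw
  haveI : IsProbabilityMeasure law := Measure.isProbabilityMeasure_map (hmeas 1 0).aemeasurable
  have hE : IsE P ω law := ⟨hmeas, hindep, fun i y => (hident i y).map_eq⟩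
  have hexp' : ∀ t : ℝ, Integrable (fun x => Real.exp (t * x)) law := by
    intro t
    rw [hlaw, integrable_map_measure (by fun_prop) (hmeas 1 0).aemeasurable]
    exact hexp t
  have h : Hyp d law β := ⟨hd, hexp' β, hexp' (-β)⟩
  have hb1 : b < 1 := by linarith
  have elow : ∀ n s, lowProb P ω β p n s = (en d law).real {η | LL β n η < n * p - s} :=
    fun n s => hE.real β n (measurableSet_Iio (a := n * p - s))
  have eup : ∀ n s, upProb P ω β p n s = (en d law).real {η | n * p + s < LL β n η} :=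
    fun n s => hE.real β n (measurableSet_Ioi (a := n * p + s))
  have emean : ∀ n, ∫ x, logZ ω β n x ∂P = ∫ η, LL β n η ∂(en d law) :=
    fun n => hE.int β n (g := fun x => x) measurable_id
  have evar : ∀ n, variance (logZ ω β n) P = variance (fun η => LL β n η) (en d law) :=
    fun n => hE.var β n
  have eneg : ∀ (q : ℝ) (n : ℕ), ∫ x, max (n * p - logZ ω β n x) 0 ^ q ∂P =
      ∫ η, max (n * p - LL β n η) 0 ^ q ∂(en d law) :=
    fun q n => hE.int β n (g := fun x => max (n * p - x) 0 ^ q)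
      (((measurable_const.sub measurable_id).max measurable_const).pow_const q)
  have eabs : ∀ (q : ℝ) (n : ℕ), ∫ x, |logZ ω β n x - n * p| ^ q ∂P =
      ∫ η, |LL β n η - n * p| ^ q ∂(en d law) :=
    fun q n => hE.int β n (g := fun x => |x - n * p| ^ q)
      ((continuous_abs.measurable.comp (measurable_id.sub_const _)).pow_const q)
  have hF : ∀ n : ℕ, ∫ η, LL β n η ∂(en d law) ≤ n * p := mean_le h (by simpa only [emean] using hp)
  have toTl : LowPolynomial P ω β p b → ∀ ζ : ℝ, 0 < ζ → ∃ δ : ℝ, 0 < δ ∧ Tl d law β p (b + ζ) δ := by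
    intro h3 ζ hζ
    obtain ⟨δ, hδ, C, hC⟩ := h3 ζ hζ
    refine ⟨δ, hδ, max C 1, lt_max_of_lt_right one_pos, fun n hn => ?_⟩
    have := hC n hn
    rw [elow] at this
    refine this.trans ?_
    gcongr
    exact le_max_left _ _
  have fromTl : (∀ ζ : ℝ, 0 < ζ → ∃ δ : ℝ, 0 < δ ∧ Tl d law β p (b + ζ) δ) →
      LowPolynomial P ω β p b := by
    intro h3 ζ hζ
    obtain ⟨δ, hδ, C, -, hC⟩ := h3 ζ hζ
    refine ⟨δ, hδ, C, fun n hn => ?_⟩
    rw [elow]
    exact hC n hn
  have toHH : LowPolynomial P ω β p b → ∀ a, b < a → HH d law β p a := fun h3 a ha =>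
    boost h hb hb1 (toTl h3) ha
  have hnegint : ∀ q : ℝ, 0 < q → ∀ n : ℕ, 1 ≤ n →
      Integrable (fun η => max (n * p - LL β n η) 0 ^ q) (en d law) := by
    intro q hq n hn
    obtain ⟨C, -, hC⟩ := neg_moment h (a := 2) (by norm_num) (HH_two h p) hq
    exact (hC n hn).1
  tfae_have 1 → 2 := by
    intro h3
    refine ⟨?_, ?_⟩
    · intro ζ hζ q hq
      obtain ⟨C, -, hC⟩ := toHH h3 (b + ζ) (by linarith) q hq
      refine ⟨C, fun n hn => ?_⟩
      rw [elow]
      exact hC n hn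
    · intro ζ hζ
      set ε : ℝ := min (b * ζ) (1 / 2) with hε
      have hε0 : 0 < ε := lt_min (by positivity) (by norm_num)
      have hε1 : ε ≤ b * ζ := min_le_left _ _
      have hε2 : ε ≤ 1 / 2 := min_le_right _ _
      have ha1 : b * (1 + ε) < 1 := by nlinarith
      obtain ⟨C, hC0, hC⟩ := upper_tail h (a := b * (1 + ε)) (by positivity) ha1
        (toHH h3 _ (by nlinarith)) hF
      refine ⟨C, fun n hn s hs => ?_⟩
      rw [eup]
      refine (hC n hn s (by linarith)).trans ?_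
      have e1 : -(1 / (b * (1 + ε))) ≤ -(1 / b) + ζ := by
        have e2 : 1 / b - ζ ≤ 1 / (b * (1 + ε)) := by
          rw [le_div_iff₀ (by positivity)]
          have e3 : (1 / b - ζ) * (b * (1 + ε)) = (1 - b * ζ) * (1 + ε) := by
            field_simp
          rw [e3]
          nlinarith [mul_pos hb hζ]
        linarith
      have e4 : s ^ (-(1 / (b * (1 + ε)))) ≤ s ^ (-(1 / b) + ζ) :=
        Real.rpow_le_rpow_of_exponent_le hs e1
      gcongr
  tfae_have 2 → 1 := fun h4 ζ hζ => ⟨1, one_pos, h4.1 ζ hζ 1 one_pos⟩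
  tfae_have 1 → 4 := by
    intro h3 q hq ζ hζ
    have hζq : 0 < ζ / q := by positivity
    obtain ⟨C, hC0, hC⟩ := neg_moment h (a := b + ζ / q) (by positivity)
      (toHH h3 _ (by linarith)) hq
    refine ⟨C, fun n hn => ?_⟩
    rw [eneg]
    refine (hC n hn).2.trans (le_of_eq ?_)
    congr 2
    field_simp
  tfae_have 4 → 3 := fun h6 => ⟨1, one_pos, h6 1 one_pos⟩
  tfae_have 3 → 1 := by
    rintro ⟨q, hq, h5⟩
    refine fromTl (tl_of_moment hq ?_)
    intro ζ hζ
    obtain ⟨C, hC⟩ := h5 ζ hζ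
    refine ⟨C, fun n hn => ⟨hnegint q hq n hn, ?_⟩⟩
    have := hC n hn
    rwa [eneg] at this
  tfae_have 1 → 5 := by
    intro h3 q hq hqb ζ hζ
    have hqb' : q * b < 1 := by rwa [lt_div_iff₀ hb] at hqb
    set η : ℝ := min ζ ((1 - q * b) / 2) with hη
    have hη0 : 0 < η := lt_min hζ (by linarith)
    have hη1 : η ≤ ζ := min_le_left _ _
    have hη2 : η ≤ (1 - q * b) / 2 := min_le_right _ _
    have hηq : 0 < η / q := by positivity
    set a : ℝ := min (b + η / q) ((b + 1) / 2) with ha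
    have hab : b < a := lt_min (by linarith) (by linarith)
    have ha1 : a < 1 := lt_of_le_of_lt (min_le_right _ _) (by linarith)
    have hap : a * q ≤ b * q + η := by
      calc a * q ≤ (b + η / q) * q := by
            gcongr
            exact min_le_left _ _
        _ = b * q + η := by field_simp
    obtain ⟨C, hC0, hC⟩ := two_moment h (a := a) (by linarith) ha1 (toHH h3 _ hab) hF hq (by nlinarith)
    refine ⟨C, fun n hn => ?_⟩
    have hn1 : (1:ℝ) ≤ n := by exact_mod_cast hn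
    rw [eabs]
    refine (hC n hn).2.trans ?_
    have e1 : (n : ℝ) ^ (a * q) ≤ (n : ℝ) ^ (b * q + ζ) :=
      Real.rpow_le_rpow_of_exponent_le hn1 (by linarith)
    gcongr
  tfae_have 5 → 1 := by
    intro h7
    refine fromTl (tl_of_moment one_pos ?_)
    intro ζ hζ
    obtain ⟨C, hC⟩ := h7 1 one_pos (by rw [lt_div_iff₀ hb]; linarith) ζ hζ
    refine ⟨C, fun n hn => ⟨hnegint 1 one_pos n hn, ?_⟩⟩
    have h1 := hC n hn
    rw [eabs] at h1
    refine le_trans (integral_mono (hnegint 1 one_pos n hn) ?_ fun w => ?_) h1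
    · simp only [Real.rpow_one]
      exact ((integrable_LL h n).sub (integrable_const _)).abs
    · simp only [Real.rpow_one]
      refine max_le ?_ (abs_nonneg _)
      rw [abs_sub_comm]
      exact le_abs_self _
  tfae_have 1 → 6 := by
    intro h3 ζ hζ
    set a : ℝ := min (b + ζ / 2) ((b + 1 / 2) / 2) with ha
    have hab : b < a := lt_min (by linarith) (by linarith)
    have ha2 : a ≤ b + ζ / 2 := min_le_left _ _
    have ha3 : a ≤ (b + 1 / 2) / 2 := min_le_right _ _
    have ha0 : 0 < a := by linarith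
    obtain ⟨C1, hC1, h1⟩ := two_moment h (a := a) ha0 (by linarith) (toHH h3 _ hab) hF two_pos
      (by linarith)
    obtain ⟨C2, hC2, h2⟩ := abs_moment h ha0 (toHH h3 _ hab) hF
    refine ⟨max C1 C2, fun n hn => ?_⟩
    have hn1 : (1:ℝ) ≤ n := by exact_mod_cast hn
    rw [evar, emean]
    constructor
    · have e1 : variance (fun η => LL β n η) (en d law) =
          variance (fun η => LL β n η - n * p) (en d law) :=
        (variance_sub_const (measurable_LL β n).aestronglyMeasurable _).symm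
      rw [e1]
      refine (variance_le_expectation_sq
        ((measurable_LL β n).sub_const _).aestronglyMeasurable).trans ?_
      have e2 : ∫ w, ((fun η => LL β n η - n * p) ^ 2) w ∂(en d law) =
          ∫ η, |LL β n η - n * p| ^ (2:ℝ) ∂(en d law) := by
        refine integral_congr_ae (Eventually.of_forall fun w => ?_)
        simp
      rw [e2]
      refine (h1 n hn).2.trans ?_
      have e3 : (n : ℝ) ^ (a * 2) ≤ (n : ℝ) ^ (2 * b + ζ) :=
        Real.rpow_le_rpow_of_exponent_le hn1 (by linarith)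
      calc C1 * (n : ℝ) ^ (a * 2) ≤ max C1 C2 * (n : ℝ) ^ (2 * b + ζ) := by
            gcongr
            exact le_max_left _ _
        _ = _ := rfl
    · have e1 : n * p - ∫ η, LL β n η ∂(en d law) ≤ ∫ η, |LL β n η - n * p| ∂(en d law) := by
        have e2 : n * p - ∫ η, LL β n η ∂(en d law) = ∫ η, (n * p - LL β n η) ∂(en d law) := by
          rw [integral_sub (integrable_const _) (integrable_LL h n)]
          simp
        rw [e2]
        refine integral_mono ((integrable_const _).sub (integrable_LL h n))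
          ((integrable_LL h n).sub (integrable_const _)).abs fun w => ?_
        simp only
        rw [abs_sub_comm]
        exact le_abs_self _
      refine e1.trans ((h2 n hn).trans ?_)
      have e3 : (n : ℝ) ^ a ≤ (n : ℝ) ^ (b + ζ) :=
        Real.rpow_le_rpow_of_exponent_le hn1 (by linarith)
      calc C2 * (n : ℝ) ^ a ≤ max C1 C2 * (n : ℝ) ^ (b + ζ) := by
            gcongr
            exact le_max_right _ _
        _ = _ := rfl
  tfae_have 6 → 1 := by
    intro h8
    refine fromTl ?_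
    intro ζ hζ
    obtain ⟨C, hC⟩ := h8 (ζ / 2) (by positivity)
    have hbig := (tendsto_natCast_atTop_atTop (R := ℝ)).eventually
      (Q70.Fp.rpow_small (K := 2 * max C 1) (show b + ζ / 2 < b + ζ by linarith))
    have hmax : 0 < max C 1 := lt_max_of_lt_right one_pos
    refine ⟨ζ, hζ, of_ev (fun n => measureReal_le_one) hζ
      (show 0 < 4 * max C 1 by positivity) ?_⟩
    filter_upwards [hbig, eventually_ge_atTop 1] with n hn hn1
    have hnr : (1:ℝ) ≤ n := by exact_mod_cast hn1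
    have hn0 : (0:ℝ) < n := by linarith
    obtain ⟨v1, v2⟩ := hC n hn1
    rw [evar] at v1
    rw [emean] at v2
    have v2' : n * p - ∫ η, LL β n η ∂(en d law) ≤ (n:ℝ) ^ (b + ζ) / 2 := by
      have e1 : C * (n:ℝ) ^ (b + ζ / 2) ≤ max C 1 * (n:ℝ) ^ (b + ζ / 2) := by
        gcongr
        exact le_max_left _ _
      linarith
    have hcheb := meas_ge_le_variance_div_sq (memLp_LL h n) (c := (n:ℝ) ^ (b + ζ) / 2) (by positivity)
    have e3 : (en d law).real {η | LL β n η < n * p - (n:ℝ) ^ (b + ζ)} ≤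
        variance (fun η => LL β n η) (en d law) / ((n:ℝ) ^ (b + ζ) / 2) ^ 2 := by
      have e4 : (en d law) {η | LL β n η < n * p - (n:ℝ) ^ (b + ζ)} ≤
          ENNReal.ofReal (variance (fun η => LL β n η) (en d law) / ((n:ℝ) ^ (b + ζ) / 2) ^ 2) := by
        refine (measure_mono ?_).trans hcheb
        intro w hw
        simp only [Set.mem_setOf_eq] at hw ⊢
        rw [le_abs]
        right
        linarith
      exact ENNReal.toReal_le_of_le_ofReal (div_nonneg (variance_nonneg _ _) (sq_nonneg _)) e4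
    refine e3.trans ?_
    have e5 : ((n:ℝ) ^ (b + ζ)) ^ 2 = (n:ℝ) ^ (2 * b + 2 * ζ) := by
      rw [← Real.rpow_natCast, ← Real.rpow_mul hn0.le]; congr 1; push_cast; ring
    have e6 : (n:ℝ) ^ (2 * b + ζ / 2) ≤ (n:ℝ) ^ (-ζ) * (n:ℝ) ^ (2 * b + 2 * ζ) := by
      rw [← Real.rpow_add hn0]
      exact Real.rpow_le_rpow_of_exponent_le hnr (by linarith)
    have e7 : variance (fun η => LL β n η) (en d law) ≤ max C 1 * (n:ℝ) ^ (2 * b + ζ / 2) := by
      refine v1.trans ?_
      gcongr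
      exact le_max_left _ _
    rw [div_pow, e5, div_le_iff₀ (by positivity)]
    have e8 : max C 1 * (n:ℝ) ^ (2 * b + ζ / 2) ≤ max C 1 * ((n:ℝ) ^ (-ζ) * (n:ℝ) ^ (2 * b + 2 * ζ)) := by
      gcongr
    calc _ ≤ max C 1 * ((n:ℝ) ^ (-ζ) * (n:ℝ) ^ (2 * b + 2 * ζ)) := e7.trans e8
      _ = _ := by ring
  tfae_finish

end Pool.Agent.Results.MP_7d29a1_pr.FluctuationMoments
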