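import Pool.Agent.Q220.DP.Expo

/-!
Directed polymers on `ℤ^d` with a general i.i.d. environment: anti-concentration of the free energy
of the polymer conditioned on an arbitrary set of walks, in terms of the quenched mean time spent in
a deterministic set of space-time sites, and the consequence for the exponents `ν` and `χ`.
The walk, the energy, `partitionFn`, `polymerProb`, `cyl` and `wanderingExp` are defined in
`Pool/Agent/TH967/DP/Defs.lean`; `restrictedFn`, `restrictedMean` and `fluctExp` in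
`Pool/Agent/Q220/DP/Defs.lean`.
-/

set_option autoImplicit false

namespace Pool.Agent.Results.MP_7d29a1_pr.TimeInSets

open MeasureTheory ProbabilityTheory Filter TH967.DP Pool.Agent.Q220.DP

/-- **Time in deterministic sets and fluctuations.** Let `d ≥ 1`, `β > 0`, and let the environment
be i.i.d., not constant, with all exponential moments.
(1) For every nonempty set `W` of walks of `n` steps, all weights `a ≥ 0` on the sites and every
interval of length `L`: the mean of `∑_{i≤n} a(i,S_i)` under the polymer measure conditioned on `W`,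
integrated over the environments with `log Z_n(W)` in the interval, is at most
`C (L+1) (∑ a²)^(1/2)`, the sum over the sites `(i,z)` with `1 ≤ i ≤ n` and `|z_k| ≤ n`.
(2) For every finite set `S` of sites and `θ > 0`, the probability that `log Z_n(W)` lies in the
interval is at most the probability that the quenched mean number of visits to `S` is less than `θ`,
plus `C (L+1) |S|^(1/2) / θ`.
(3) For `0 ≤ λ < (1-dν)/2`, the probability of `|log Z_n - y| ≤ n^λ` tends to `0`, uniformly
in `y`.
(4) `χ ≥ (1-dν)/2`. -/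
theorem result {d : ℕ} (hd : 1 ≤ d) {Ω : Type} [MeasurableSpace Ω] (P : Measure Ω)
    [IsProbabilityMeasure P] (ω : ℕ → (Fin d → ℤ) → Ω → ℝ)
    (hmeas : ∀ i y, Measurable (ω i y))
    (hindep : iIndepFun (fun s : ℕ × (Fin d → ℤ) => ω s.1 s.2) P)
    (hident : ∀ i y, IdentDistrib (ω i y) (ω 1 0) P P)
    (hexp : ∀ b : ℝ, Integrable (fun x => Real.exp (b * ω 1 0 x)) P)
    (hnc : ¬ ∃ c : ℝ, ∀ᵐ x ∂P, ω 1 0 x = c) (β : ℝ) (hβ : 0 < β) :
    (∃ C : ℝ, 0 < C ∧
      (∀ (n : ℕ) (W : Set (Fin n → Step d)), W.Nonempty →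
        ∀ a : ℕ → (Fin d → ℤ) → ℝ, (∀ i z, 0 ≤ a i z) → ∀ y L : ℝ, 0 ≤ L →
        ∫ x in {x | Real.log (restrictedFn β (fun i z => ω i z x) n W) ∈ Set.Icc y (y + L)},
          restrictedMean β (fun i z => ω i z x) n W
            (fun w => ∑ i : Fin n, a (i.val + 1) (pos w (i.val + 1))) ∂P ≤
        C * (L + 1) * Real.sqrt (∑ i ∈ Finset.Icc 1 n,
          ∑ z ∈ Finset.Icc (fun _ : Fin d => -(n : ℤ)) (fun _ => (n : ℤ)), a i z ^ 2)) ∧
      (∀ (n : ℕ) (W : Set (Fin n → Step d)), W.Nonempty →
        ∀ (S : Finset (ℕ × (Fin d → ℤ))) (θ : ℝ), 0 < θ → ∀ y L : ℝ, 0 ≤ L →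
        P.real {x | Real.log (restrictedFn β (fun i z => ω i z x) n W) ∈ Set.Icc y (y + L)} ≤
          P.real {x | restrictedMean β (fun i z => ω i z x) n W
            (fun w => ∑ i : Fin n, (S : Set (ℕ × (Fin d → ℤ))).indicator (fun _ => (1 : ℝ))
              (i.val + 1, pos w (i.val + 1))) < θ} +
            C * (L + 1) * Real.sqrt S.card / θ)) ∧
    (∀ lam : ℝ, 0 ≤ lam → lam < (1 - d * wanderingExp P ω β) / 2 → ∀ ε : ℝ, 0 < ε →
      ∀ᶠ n : ℕ in atTop, ∀ y : ℝ,
        P.real {x | |Real.log (partitionFn β (fun i z => ω i z x) n) - y| ≤ (n : ℝ) ^ lam} ≤ ε) ∧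
    (1 - d * wanderingExp P ω β) / 2 ≤ fluctExp P ω β := by
  have h : IsEnv P ω := ⟨hmeas, hindep, hident⟩
  obtain ⟨C, hC, hCw⟩ := weights h hd hexp hnc hβ
  refine ⟨⟨C, hC, hCw, ?_⟩, ?_, exponents h hd hexp hnc hβ⟩
  · intro n W hW S θ hθ y L hL
    have h1 := sets h hd hC hCw hW S hθ y hL
    have e : ∀ w : Fin n → Step d, visits S w = ∑ i : Fin n,
        (S : Set (ℕ × (Fin d → ℤ))).indicator (fun _ => (1 : ℝ))
          (i.val + 1, pos w (i.val + 1)) := by
      intro w
      unfold visits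
      apply Finset.sum_congr rfl
      intro i _
      by_cases hi : (i.val + 1, pos w (i.val + 1)) ∈ S
      · rw [if_pos hi, Set.indicator_of_mem (Finset.mem_coe.2 hi)]
      · rw [if_neg hi, Set.indicator_of_notMem (fun h => hi (Finset.mem_coe.1 h))]
    have e2 : (visits S : (Fin n → Step d) → ℝ) = fun w => ∑ i : Fin n,
        (S : Set (ℕ × (Fin d → ℤ))).indicator (fun _ => (1 : ℝ))
          (i.val + 1, pos w (i.val + 1)) := funext e
    rw [e2] at h1
    exact h1
  · intro lam hl0 hl ε hε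
    exact small_ball h hd hexp hnc hβ hl0 hl hε

end Pool.Agent.Results.MP_7d29a1_pr.TimeInSets
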