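import Pool.Agent.Q220.DP.Window3
import Pool.Agent.Q220.DP.Defs

/-!
Directed polymers on `ℤ^d` with a general i.i.d. environment: for `κ < 1/(d+2)` the polymer does not
stay, during a time window of length `ℓ`, within distance `ℓ^κ` of a deterministic path, whatever it
does outside the window. The walk, the energy and the partition function are defined in
`Pool/Agent/TH967/DP/Defs.lean`, `restrictedFn` in `Pool/Agent/Q220/DP/Defs.lean`.
-/

set_option autoImplicit false

namespace Pool.Agent.Results.MP_7d29a1_pr.TimeWindows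

open MeasureTheory ProbabilityTheory Filter TH967.DP Pool.Agent.Q220.DP

/-- The walks of `n` steps with `‖S_i - γ_i‖ ≤ r` (Euclidean norm) for all `s ≤ i ≤ s + ℓ`. -/
def near {d : ℕ} (n s ℓ : ℕ) (γ : ℕ → Fin d → ℝ) (r : ℝ) : Set (Fin n → Step d) :=
  {w | ∀ i, s ≤ i → i ≤ s + ℓ → Real.sqrt (∑ k, ((pos w i k : ℝ) - γ i k) ^ 2) ≤ r}

/-- The event `W` does not depend on the walk strictly between the times `s` and `s + ℓ`: of two
walks of `n` steps which agree at all other times, both or none belong to `W`. -/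
def NotInside {d : ℕ} (n s ℓ : ℕ) (W : Set (Fin n → Step d)) : Prop :=
  ∀ w w' : Fin n → Step d, (∀ i ≤ s, pos w i = pos w' i) →
    (∀ i, s + ℓ ≤ i → i ≤ n → pos w i = pos w' i) → (w ∈ W ↔ w' ∈ W)

lemma coord {d n s ℓ : ℕ} {γ : ℕ → Fin d → ℝ} {r : ℝ} {w : Fin n → Step d}
    (hw : w ∈ near n s ℓ γ r) {i : ℕ} (h1 : s ≤ i) (h2 : i ≤ s + ℓ) (k : Fin d) :
    |(pos w i k : ℝ) - γ i k| ≤ r := by
  refine le_trans ?_ (hw i h1 h2)
  apply Real.le_sqrt_of_sq_le
  rw [sq_abs]
  exact Finset.single_le_sum (f := fun k => ((pos w i k : ℝ) - γ i k) ^ 2)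
    (fun _ _ => sq_nonneg _) (Finset.mem_univ k)

lemma restrictedFn_eq {d n : ℕ} (β : ℝ) (η : ℕ → (Fin d → ℤ) → ℝ) (W : Set (Fin n → Step d)) :
    restrictedFn β η n W =
      (∑ w : Fin n → Step d, W.indicator (fun w => Real.exp (β * energy η w)) w) /
        (2 * (d : ℝ)) ^ n := rfl

/-- **Windows.** Let `d ≥ 1`, `β > 0`, and let the environment be i.i.d., not constant, with all
exponential moments. Let `0 < κ < 1/(d+2)`, `c < (1-(d+2)κ)/6` and `ε > 0`.
(1) For all large `ℓ`, all `s` and every deterministic path `γ` with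
`|γ_(s+ℓ) - γ_s|_1 ≤ (1-ε) ℓ`: with probability at least `1 - ℓ^(-c)` the following holds for all
`n ≥ s + ℓ` and all events `W` which do not depend on the walk inside the window: the polymer of
length `n` conditioned on `W` satisfies `‖S_i - γ_i‖ ≤ ℓ^κ` throughout the window with polymer
probability at most `exp(-ℓ^κ)`.
(2) For all large `n`, all end points `y` with `|y|_1 ≤ (1-ε) n` and every deterministic path `γ`:
with probability at least `1 - n^(-c)` the polymer of length `n` pinned at `S_n = y` satisfies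
`max_{i≤n} ‖S_i - γ_i‖ ≤ n^κ` with polymer probability at most `exp(-n^κ)`. -/
theorem result {d : ℕ} (hd : 1 ≤ d) {Ω : Type} [MeasurableSpace Ω] (P : Measure Ω)
    [IsProbabilityMeasure P] (ω : ℕ → (Fin d → ℤ) → Ω → ℝ)
    (hmeas : ∀ i y, Measurable (ω i y))
    (hindep : iIndepFun (fun s : ℕ × (Fin d → ℤ) => ω s.1 s.2) P)
    (hident : ∀ i y, IdentDistrib (ω i y) (ω 1 0) P P)
    (hexp : ∀ b : ℝ, Integrable (fun x => Real.exp (b * ω 1 0 x)) P)
    (hnc : ¬ ∃ c : ℝ, ∀ᵐ x ∂P, ω 1 0 x = c) (β : ℝ) (hβ : 0 < β)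
    (κ c ε : ℝ) (hκ : 0 < κ) (hκ2 : κ < 1 / ((d : ℝ) + 2)) (hc : c < (1 - (d + 2) * κ) / 6)
    (hε : 0 < ε) :
    (∀ᶠ ℓ : ℕ in atTop, ∀ (s : ℕ) (γ : ℕ → Fin d → ℝ),
      ∑ k, |γ (s + ℓ) k - γ s k| ≤ (1 - ε) * ℓ →
      P.real {x | ∃ n, s + ℓ ≤ n ∧ ∃ W : Set (Fin n → Step d), NotInside n s ℓ W ∧
        Real.exp (-(ℓ : ℝ) ^ κ) * restrictedFn β (fun i y => ω i y x) n W <
          restrictedFn β (fun i y => ω i y x) n (W ∩ near n s ℓ γ ((ℓ : ℝ) ^ κ))} ≤
        (ℓ : ℝ) ^ (-c)) ∧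
    (∀ᶠ n : ℕ in atTop, ∀ y : Fin d → ℤ, ∑ k, |(y k : ℝ)| ≤ (1 - ε) * n →
      ∀ γ : ℕ → Fin d → ℝ,
      P.real {x | Real.exp (-(n : ℝ) ^ κ) *
          restrictedFn β (fun i y => ω i y x) n {w | pos w n = y} <
          restrictedFn β (fun i y => ω i y x) n
            ({w | pos w n = y} ∩ near n 0 n γ ((n : ℝ) ^ κ))} ≤ (n : ℝ) ^ (-c)) := by
  have h : IsEnv P ω := ⟨hmeas, hindep, hident⟩
  have hd2 : (0 : ℝ) < (d : ℝ) + 2 := by positivity
  have hd0 : (0 : ℝ) ≤ d := by positivity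
  have hdR : (0 : ℝ) < d := by exact_mod_cast hd
  have hκ3 : κ * ((d : ℝ) + 2) < 1 := by rwa [lt_div_iff₀ hd2] at hκ2
  set g := (1 - (d + 2) * κ) / 6 with hg
  have hg0 : 0 < g := by rw [hg]; linarith
  set m0 := max c 0 with hm0
  have hm1 : m0 < g := max_lt hc hg0
  have hmc : c ≤ m0 := le_max_left _ _
  have hmn : 0 ≤ m0 := le_max_right _ _
  set c' := (m0 + g) / 2 with hc'
  have hc'1 : c < c' := by rw [hc']; linarith
  have hc'0 : 0 < c' := by rw [hc']; linarith
  have hc'2 : c' < g := by rw [hc']; linarith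
  set s0 := (g - c') / (d + 2) with hs
  have hs0 : 0 < s0 := div_pos (by linarith) hd2
  have hs1 : s0 * (d + 2) = g - c' := by rw [hs]; field_simp
  set κ' := κ + s0 with hκ'
  have hκ'0 : 0 < κ' := by rw [hκ']; linarith
  have hkey : 3 * c' < (1 - d * κ') / 2 - κ' := by
    rw [hκ']
    have e1 : (1 - d * (κ + s0)) / 2 - (κ + s0) = (1 - (d + 2) * κ) / 2 - s0 * (d + 2) / 2 := by
      ring
    rw [e1, hs1]
    have e2 : (1 - (d + 2) * κ) / 2 = 3 * g := by rw [hg]; ring
    rw [e2]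
    linarith
  -- the first part, for every positive `ε`
  have part1 : ∀ ε : ℝ, 0 < ε → ∀ᶠ ℓ : ℕ in atTop, ∀ (s : ℕ) (γ : ℕ → Fin d → ℝ),
      ∑ k, |γ (s + ℓ) k - γ s k| ≤ (1 - ε) * ℓ →
      P.real {x | ∃ n, s + ℓ ≤ n ∧ ∃ W : Set (Fin n → Step d), NotInside n s ℓ W ∧
        Real.exp (-(ℓ : ℝ) ^ κ) * restrictedFn β (fun i y => ω i y x) n W <
          restrictedFn β (fun i y => ω i y x) n (W ∩ near n s ℓ γ ((ℓ : ℝ) ^ κ))} ≤
        (ℓ : ℝ) ^ (-c) := by
    intro ε hε
    have hmain := window_tube h hd hexp hnc hβ hκ'0 hc'0.le hkey (ε := ε / 2) (by linarith)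
    have q1 := pow_dom (s := κ) (t := κ') (by rw [hκ']; linarith) 2
    have hκ1 : κ < 1 := by nlinarith
    have q2 := pow_dom (s := κ) (t := 1) hκ1 (2 * d / (ε / 2))
    filter_upwards [hmain, q1, q2, eventually_ge_atTop 1] with ℓ hn r1 r2 hn1
    intro s γ hγ
    have hnR : (1 : ℝ) ≤ ℓ := by exact_mod_cast hn1
    have hn0 : (0 : ℝ) < ℓ := by linarith
    by_cases hne : ∃ n1, s + ℓ ≤ n1 ∧ (near n1 s ℓ γ ((ℓ : ℝ) ^ κ)).Nonempty
    · obtain ⟨n1, hn1', w1, hw1⟩ := hne
      set w0 : Fin (s + ℓ) → Step d := fun j => w1 (Fin.castLE hn1' j) with hw0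
      have hpos : ∀ i ≤ s + ℓ, pos w0 i = pos w1 i := fun i hi => pos_castLE hn1' w1 hi
      have hdisp : ((∑ k, |(pos w0 (s + ℓ) - pos w0 s) k| : ℤ) : ℝ) ≤ (1 - ε / 2) * ℓ := by
        push_cast
        have e1 : ∀ k, |((pos w0 (s + ℓ) - pos w0 s) k : ℝ)| ≤
            |γ (s + ℓ) k - γ s k| + 2 * (ℓ : ℝ) ^ κ := by
          intro k
          rw [hpos _ le_rfl, hpos _ (Nat.le_add_right _ _)]
          have e2 := abs_le.1 (coord hw1 (Nat.le_add_right s ℓ) le_rfl k)
          have e3 := abs_le.1 (coord hw1 le_rfl (Nat.le_add_right s ℓ) k)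
          have e4 := abs_le.1 (le_refl |γ (s + ℓ) k - γ s k|)
          rw [Pi.sub_apply]
          push_cast
          rw [abs_le]
          constructor <;> linarith [e2.1, e2.2, e3.1, e3.2, e4.1, e4.2]
        refine (Finset.sum_le_sum (fun k _ => e1 k)).trans ?_
        rw [Finset.sum_add_distrib, Finset.sum_const, Finset.card_univ, Fintype.card_fin,
          nsmul_eq_mul]
        have e5 : (d : ℝ) * (2 * (ℓ : ℝ) ^ κ) ≤ ε / 2 * ℓ := by
          rw [Real.rpow_one] at r2
          have := mul_le_mul_of_nonneg_left r2 (show (0 : ℝ) ≤ ε / 2 by linarith)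
          have e6 : ε / 2 * (2 * d / (ε / 2) * (ℓ : ℝ) ^ κ) = d * (2 * (ℓ : ℝ) ^ κ) := by
            field_simp
          linarith
        linarith
      refine le_trans (measureReal_mono ?_ (measure_ne_top _ _)) ((hn s (s + ℓ) w0 le_rfl
        hdisp).trans (Real.rpow_le_rpow_of_exponent_le hnR (by linarith)))
      rintro x ⟨n, hsn, W, hW, hlt⟩
      refine ⟨n, hsn, W, hW, ?_⟩
      have hpow : (0 : ℝ) < (2 * (d : ℝ)) ^ n := by positivity
      rw [restrictedFn_eq, restrictedFn_eq, mul_div_assoc', div_lt_div_iff_of_pos_right hpow] at hlt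
      have hexpmono : Real.exp (-(ℓ : ℝ) ^ κ') ≤ Real.exp (-(ℓ : ℝ) ^ κ) := by
        apply Real.exp_le_exp.2
        have : (ℓ : ℝ) ^ κ ≤ (ℓ : ℝ) ^ κ' :=
          Real.rpow_le_rpow_of_exponent_le hnR (by rw [hκ']; linarith)
        linarith
      have hWnn : 0 ≤ ∑ w, W.indicator
          (fun w => Real.exp (β * energy (fun i y => ω i y x) w)) w :=
        Finset.sum_nonneg (fun _ _ => Set.indicator_nonneg (fun _ _ => (Real.exp_pos _).le) _)
      refine lt_of_le_of_lt (mul_le_mul_of_nonneg_right hexpmono hWnn) (lt_of_lt_of_le hlt ?_)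
      apply Finset.sum_le_sum
      intro w _
      apply Set.indicator_le_indicator_of_subset _ (fun _ => (Real.exp_pos _).le)
      intro w hw
      refine ⟨hw.1, fun i hi1 hi2 k => ?_⟩
      rw [hpos i hi2]
      have h2 := abs_le.1 (coord hw.2 hi1 hi2 k)
      have h3 := abs_le.1 (coord hw1 hi1 hi2 k)
      have hfl := Nat.lt_floor_add_one ((ℓ : ℝ) ^ κ')
      have h4 : |((pos w i - pos w1 i) k : ℝ)| < ⌊(ℓ : ℝ) ^ κ'⌋₊ + 1 := by
        rw [abs_lt]
        simp only [Pi.sub_apply]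
        push_cast
        constructor <;> linarith [h2.1, h2.2, h3.1, h3.2]
      have h5 : |(pos w i - pos w1 i) k| < ((⌊(ℓ : ℝ) ^ κ'⌋₊ : ℕ) : ℤ) + 1 := by
        exact_mod_cast h4
      omega
    · push Not at hne
      have h0 : {x | ∃ n, s + ℓ ≤ n ∧ ∃ W : Set (Fin n → Step d), NotInside n s ℓ W ∧
        Real.exp (-(ℓ : ℝ) ^ κ) * restrictedFn β (fun i y => ω i y x) n W <
          restrictedFn β (fun i y => ω i y x) n (W ∩ near n s ℓ γ ((ℓ : ℝ) ^ κ))} = ∅ := by
        ext x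
        simp only [Set.mem_ofPred_eq, Set.mem_empty_iff_false, iff_false]
        rintro ⟨n, hsn, W, hW, hlt⟩
        have he := hne n hsn
        rw [he, Set.inter_empty, restrictedFn_eq, restrictedFn_eq] at hlt
        simp only [Set.indicator_empty, Finset.sum_const_zero, zero_div] at hlt
        apply absurd hlt (not_lt.2 _)
        apply mul_nonneg (Real.exp_pos _).le
        apply div_nonneg _ (by positivity)
        exact Finset.sum_nonneg (fun _ _ => Set.indicator_nonneg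
          (fun _ _ => (Real.exp_pos _).le) _)
      rw [h0]
      simp only [measureReal_empty]
      positivity
  refine ⟨part1 ε hε, ?_⟩
  have hκ1 : κ < 1 := by nlinarith
  have q2 := pow_dom (s := κ) (t := 1) hκ1 (2 * d / (ε / 2))
  filter_upwards [part1 (ε / 2) (by linarith), q2, eventually_ge_atTop 1] with n hn r2 hn1
  intro y hy γ
  have hnR : (1 : ℝ) ≤ n := by exact_mod_cast hn1
  by_cases hne : ({w | pos w n = y} ∩ near n 0 n γ ((n : ℝ) ^ κ)).Nonempty
  · obtain ⟨w1, hw1y, hw1⟩ := hne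
    have hγ : ∑ k, |γ (0 + n) k - γ 0 k| ≤ (1 - ε / 2) * n := by
      have e1 : ∀ k, |γ (0 + n) k - γ 0 k| ≤ |(y k : ℝ)| + 2 * (n : ℝ) ^ κ := by
        intro k
        have e2 := abs_le.1 (coord hw1 (Nat.zero_le n) (by omega) k)
        have e3 := abs_le.1 (coord hw1 le_rfl (Nat.zero_le _) k)
        rw [show pos w1 n = y from hw1y] at e2
        rw [pos_zero, Pi.zero_apply] at e3
        push_cast at e3
        have e4 := abs_le.1 (le_refl |(y k : ℝ)|)
        rw [zero_add, abs_le]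
        constructor <;> linarith [e2.1, e2.2, e3.1, e3.2, e4.1, e4.2]
      refine (Finset.sum_le_sum (fun k _ => e1 k)).trans ?_
      rw [Finset.sum_add_distrib, Finset.sum_const, Finset.card_univ, Fintype.card_fin,
        nsmul_eq_mul]
      have e5 : (d : ℝ) * (2 * (n : ℝ) ^ κ) ≤ ε / 2 * n := by
        rw [Real.rpow_one] at r2
        have := mul_le_mul_of_nonneg_left r2 (show (0 : ℝ) ≤ ε / 2 by linarith)
        have e6 : ε / 2 * (2 * d / (ε / 2) * (n : ℝ) ^ κ) = d * (2 * (n : ℝ) ^ κ) := by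
          field_simp
        linarith
      linarith
    refine le_trans (measureReal_mono ?_ (measure_ne_top _ _)) (hn 0 γ hγ)
    intro x hx
    refine ⟨n, by omega, {w | pos w n = y}, ?_, hx⟩
    intro w w' _ h2
    have := h2 n (by omega) le_rfl
    simp only [Set.mem_ofPred_eq]
    rw [this]
  · have he : ({w | pos w n = y} ∩ near n 0 n γ ((n : ℝ) ^ κ)) = ∅ :=
      Set.not_nonempty_iff_eq_empty.1 hne
    have h0 : {x | Real.exp (-(n : ℝ) ^ κ) *
          restrictedFn β (fun i y => ω i y x) n {w | pos w n = y} <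
          restrictedFn β (fun i y => ω i y x) n
            ({w | pos w n = y} ∩ near n 0 n γ ((n : ℝ) ^ κ))} = ∅ := by
      ext x
      simp only [Set.mem_ofPred_eq, Set.mem_empty_iff_false, iff_false]
      rw [he, restrictedFn_eq, restrictedFn_eq]
      simp only [Set.indicator_empty, Finset.sum_const_zero, zero_div, not_lt]
      apply mul_nonneg (Real.exp_pos _).le
      apply div_nonneg _ (by positivity)
      exact Finset.sum_nonneg (fun _ _ => Set.indicator_nonneg
        (fun _ _ => (Real.exp_pos _).le) _)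
    rw [h0]
    simp only [measureReal_empty]
    positivity

end Pool.Agent.Results.MP_7d29a1_pr.TimeWindows
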